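import Pool.Agent.L0h51.EX.Nec
import Pool.Agent.L0h51.CV.Cor

/-! Consequences of the exact criterion. -/

set_option autoImplicit false
set_option maxHeartbeats 400000
set_option linter.style.haveILetI false

namespace Pool.Agent.L0h51.EX

open Pool.Agent.K4H40.ST Pool.Agent.K4H40.ST.Zar Pool.Agent.K4H40.ST.Main
open Pool.Agent.K4H53.SI Pool.Agent.L0h51.CV
open NumberField IsDedekindDomain Filter Topology MeasureTheory
open Pool.Agent.W540.BE (upto mem_upto cheb_mean)

variable {K : Type} [Field K] [NumberField K]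

/-- the mean of `|fx - 1|` is twice the proportion of the elements without fixed point -/
theorem sum_abs_fx {A : Type} [Group A] [Fintype A] (H : Subgroup A) :
    ∑ a : A, |fx H a - 1| = 2 * (Nat.card {a : A // ∀ b : A, b⁻¹ * a * b ∉ H} : ℝ) := by
  classical
  have h1 : ∀ a : A, |fx H a - 1| = (fx H a - 1) + 2 * (if ∀ b : A, b⁻¹ * a * b ∉ H then 1 else 0) := by
    intro a
    have h2 := Grp.fx_ne_zero_iff H a
    have h3 : Grp.fx H a = fx H a := rfl
    rw [h3] at h2
    by_cases h4 : ∃ g : A, g⁻¹ * a * g ∈ H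
    · have h5 : ¬ ∀ b : A, b⁻¹ * a * b ∉ H := by
        obtain ⟨b, hb⟩ := h4
        exact fun h => h b hb
      rw [if_neg h5, mul_zero, add_zero, abs_of_nonneg]
      have h6 : fx H a ≠ 0 := h2.2 h4
      unfold fx at h6 ⊢
      have h7 : Nat.card {x : A ⧸ H // a • x = x} ≠ 0 := by exact_mod_cast h6
      have h8 : (1 : ℝ) ≤ (Nat.card {x : A ⧸ H // a • x = x} : ℝ) := by
        exact_mod_cast Nat.one_le_iff_ne_zero.2 h7
      linarith
    · have h5 : ∀ b : A, b⁻¹ * a * b ∉ H := fun b hb => h4 ⟨b, hb⟩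
      have h6 : fx H a = 0 := by
        by_contra h7
        exact h4 (h2.1 h7)
      rw [if_pos h5, h6]
      norm_num
  rw [Finset.sum_congr rfl fun a _ => h1 a, Finset.sum_add_distrib, Finset.sum_sub_distrib, sum_fx,
    ← Finset.mul_sum, Finset.sum_boole, Finset.sum_const, Finset.card_univ, nsmul_eq_mul, mul_one,
    Nat.card_eq_fintype_card, sub_self, zero_add, Nat.card_eq_fintype_card, Fintype.card_subtype]

/-- Single fields which see almost all primes. -/
theorem approx_single (S : Set (IntermediateField K (Kbar K)))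
    (hS : ∀ E ∈ S, FiniteDimensional K E)
    (h : ∀ ε : ℝ, 0 < ε → ∃ E ∈ S, ∀ᶠ N : ℕ in atTop,
      (cnt (fun v : HeightOneSpectrum (𝓞 K) => ¬ Seen E v) N : ℝ) ≤
        ε * (cnt (fun _ : HeightOneSpectrum (𝓞 K) => True) N : ℝ)) : Approximates S := by
  classical
  intro ε hε
  obtain ⟨E, hE, hEd⟩ := h (ε / 3) (by positivity)
  refine ⟨{E}, fun _ => 1, by
    rw [Finset.coe_singleton, Set.singleton_subset_iff]; exact hE, ?_⟩
  haveI := hS E hE
  obtain ⟨V, hVn, hVo, hV⟩ := exists_normal {E} (Set.finite_singleton E) (by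
    rintro _ rfl
    infer_instance)
  have hVE : V ≤ E.fixingSubgroup := hV E rfl
  haveI : Finite (Gal(Kbar K/K) ⧸ V) := Subgroup.quotient_finite_of_isOpen V hVo
  letI : Fintype (Gal(Kbar K/K) ⧸ V) := Fintype.ofFinite _
  have h1 := err_tendsto V hVo {E} (fun F hF => by
    rw [Finset.mem_singleton] at hF
    subst hF
    infer_instance) (fun F hF => by
    rw [Finset.mem_singleton] at hF
    subst hF
    exact hVE) (fun _ => 1)
  have h2 := unc_le V hVo {E} (Set.finite_singleton E) (by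
    rintro _ rfl
    exact numberField_of _ inferInstance) hV (ε / 3) (by
    filter_upwards [hEd] with N hN
    refine le_trans (le_of_eq ?_) hN
    congr 2
    ext v
    simp)
  have h3 : L1 V {E} (fun _ => 1) = 2 * ((Nat.card {a : Gal(Kbar K/K) ⧸ V // Unc V {E} a} : ℝ) /
      (Nat.card (Gal(Kbar K/K) ⧸ V) : ℝ)) := by
    unfold L1
    simp only [Finset.sum_singleton, one_mul]
    rw [sum_abs_fx, mul_div_assoc]
    have h4 : Nat.card {a : Gal(Kbar K/K) ⧸ V // ∀ b : Gal(Kbar K/K) ⧸ V, b⁻¹ * a * b ∉ img V E} =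
        Nat.card {a : Gal(Kbar K/K) ⧸ V // Unc V {E} a} := by
      refine Nat.card_congr (Equiv.subtypeEquivRight fun a => ?_)
      unfold Unc
      simp
    rw [h4]
  rw [h3] at h1
  filter_upwards [h1.eventually_lt_const (show 2 * ((Nat.card {a : Gal(Kbar K/K) ⧸ V //
      Unc V {E} a} : ℝ) / (Nat.card (Gal(Kbar K/K) ⧸ V) : ℝ)) < ε by linarith)] with N hN
  exact hN.le

/-- the density of the primes which are not seen, from the Haar measure -/
theorem seen_of_measure [MeasurableSpace Gal(Kbar K/K)] [BorelSpace Gal(Kbar K/K)]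
    (μ : Measure Gal(Kbar K/K)) [IsProbabilityMeasure μ] [μ.IsMulLeftInvariant]
    (E : IntermediateField K (Kbar K)) (hE : FiniteDimensional K E) (ε : ℝ)
    (h : μ.real (WW {E}) < ε) : ∀ᶠ N : ℕ in atTop,
      (cnt (fun v : HeightOneSpectrum (𝓞 K) => ¬ Seen E v) N : ℝ) ≤
        ε * (cnt (fun _ : HeightOneSpectrum (𝓞 K) => True) N : ℝ) := by
  obtain ⟨V, hVn, hVo, hV⟩ := exists_normal {E} (Set.finite_singleton E) (by
    rintro _ rfl
    infer_instance)
  have h3 := dens V hVo {E} (Set.finite_singleton E) (by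
    rintro _ rfl
    exact numberField_of _ inferInstance) hV
  rw [← (measure_WW μ V hVo {E} hV).2] at h3
  have h5 := ((cnt_true_tendsto (K := K)).const_mul ε).sub h3
  rw [mul_one] at h5
  filter_upwards [h5.eventually_const_lt (sub_pos.2 h),
    prime_tendsto.eventually_gt_atTop 0] with N hN hp
  rw [← mul_div_assoc, ← sub_div, div_pos_iff_of_pos_right hp] at hN
  have h6 : cnt (fun v : HeightOneSpectrum (𝓞 K) => ∀ F ∈ ({E} : Set (IntermediateField K (Kbar K))),
      ¬ Seen F v) N = cnt (fun v : HeightOneSpectrum (𝓞 K) => ¬ Seen E v) N := by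
    congr 1
    ext v
    simp
  rw [h6] at hN
  linarith

/-- The fields `K(z)`, `z ^ q = a`, for infinitely many primes `q`. -/
theorem approx_radical (a : K) (P : Set ℕ) (hP : P.Infinite) (hPp : ∀ q ∈ P, q.Prime) :
    Approximates {E : IntermediateField K (Kbar K) | ∃ q ∈ P, ∃ z : Kbar K,
      z ^ q = algebraMap K (Kbar K) a ∧ E = IntermediateField.adjoin K {z}} := by
  have hfd : ∀ z : Kbar K, FiniteDimensional K (IntermediateField.adjoin K {z}) := fun z =>
    IntermediateField.adjoin.finiteDimensional (Algebra.IsIntegral.isIntegral z)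
  refine approx_single _ ?_ ?_
  · rintro _ ⟨q, -, z, -, rfl⟩
    exact hfd z
  · intro ε hε
    letI : MeasurableSpace Gal(Kbar K/K) := borel _
    haveI : BorelSpace Gal(Kbar K/K) := ⟨rfl⟩
    let μ : Measure Gal(Kbar K/K) := Measure.haarMeasure ⊤
    haveI : IsProbabilityMeasure μ := ⟨Measure.haarMeasure_self⟩
    haveI : μ.IsMulLeftInvariant := inferInstanceAs (Measure.haarMeasure _).IsMulLeftInvariant
    obtain ⟨q, hq, hqlt⟩ := hP.exists_gt (⌈(Module.finrank ℚ K : ℝ) / (ε / 2)⌉₊ + 1)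
    have hqp := hPp q hq
    haveI : Fact q.Prime := ⟨hqp⟩
    obtain ⟨ζ, hζ⟩ : ∃ ζ : Kbar K, IsPrimitiveRoot ζ q := by
      haveI : NeZero (q : Kbar K) := ⟨by exact_mod_cast hqp.ne_zero⟩
      exact HasEnoughRootsOfUnity.exists_primitiveRoot _ _
    -- a root such that all roots are conjugate to it, or a root in `K`
    obtain ⟨z, hz, hconj⟩ : ∃ z : Kbar K, z ^ q = algebraMap K (Kbar K) a ∧
        ∀ σ : Gal(Kbar K/K), σ ζ ≠ ζ → ∃ τ : Gal(Kbar K/K), σ (τ z) = τ z := by
      by_cases hred : ∃ b : K, b ^ q = a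
      · obtain ⟨b, hb⟩ := hred
        refine ⟨algebraMap K (Kbar K) b, by rw [← map_pow, hb], fun σ _ => ⟨1, ?_⟩⟩
        change σ (algebraMap K (Kbar K) b) = algebraMap K (Kbar K) b
        exact σ.commutes b
      · obtain ⟨z, hz⟩ := IsAlgClosed.exists_pow_nat_eq (algebraMap K (Kbar K) a) hqp.pos
        refine ⟨z, hz, fun σ hσ => ?_⟩
        obtain ⟨z', hz', hfix⟩ := exists_fixed_root hζ a σ hσ
        have hirr : Irreducible (Polynomial.X ^ q - Polynomial.C a : Polynomial K) :=
          X_pow_sub_C_irreducible_of_prime hqp fun b hb => hred ⟨b, hb⟩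
        have hmin : ∀ y : Kbar K, y ^ q = algebraMap K (Kbar K) a →
            minpoly K y = Polynomial.X ^ q - Polynomial.C a := by
          intro y hy
          symm
          refine minpoly.eq_of_irreducible_of_monic hirr ?_
            (Polynomial.monic_X_pow_sub_C a hqp.ne_zero)
          simp [hy]
        have h1 : IsConjRoot K z z' := by
          unfold IsConjRoot
          rw [hmin z hz, hmin z' hz']
        obtain ⟨τ, hτ⟩ := (isConjRoot_iff_exists_algEquiv).1 h1.symm
        exact ⟨τ, by rw [hτ, hfix]⟩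
    refine ⟨IntermediateField.adjoin K {z}, ⟨q, hq, z, hz, rfl⟩,
      seen_of_measure μ _ (hfd z) ε ?_⟩
    have h2 := measure_cyc μ hζ
    have h3 : (Module.finrank ℚ K : ℝ) / (ε / 2) < (q : ℝ) - 1 := by
      have h4 : ((⌈(Module.finrank ℚ K : ℝ) / (ε / 2)⌉₊ + 1 : ℕ) : ℝ) < (q : ℝ) := by
        exact_mod_cast hqlt
      push_cast at h4
      have h5 := Nat.le_ceil ((Module.finrank ℚ K : ℝ) / (ε / 2))
      linarith
    have h4 : μ.real (WW {IntermediateField.adjoin K {z}}) ≤ μ.real {σ | σ ζ = ζ} := by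
      refine measureReal_mono fun σ hσ => ?_
      by_contra hcon
      obtain ⟨τ, hτ⟩ := hconj σ hcon
      refine hσ ⟨_, rfl, τ, fun x hx => ?_⟩
      have h5 : IntermediateField.adjoin K {z} ≤
          IntermediateField.fixedField (Subgroup.zpowers (τ⁻¹ * σ * τ)) := by
        rw [IntermediateField.adjoin_le_iff, Set.singleton_subset_iff]
        change z ∈ IntermediateField.fixedField (Subgroup.zpowers (τ⁻¹ * σ * τ))
        rw [IntermediateField.mem_fixedField_iff]
        intro γ hγ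
        have h6 : Subgroup.zpowers (τ⁻¹ * σ * τ) ≤ MulAction.stabilizer Gal(Kbar K/K) z := by
          rw [Subgroup.zpowers_le]
          change (τ⁻¹ * σ * τ) z = z
          rw [AlgEquiv.mul_apply, AlgEquiv.mul_apply, hτ]
          exact τ.symm_apply_apply z
        exact h6 hγ
      have h6 := h5 hx
      rw [IntermediateField.mem_fixedField_iff] at h6
      have h7 := h6 _ (Subgroup.mem_zpowers _)
      rw [AlgEquiv.mul_apply, AlgEquiv.mul_apply] at h7
      have h8 := congrArg τ h7
      rw [← AlgEquiv.mul_apply, mul_inv_cancel] at h8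
      exact h8
    refine lt_of_le_of_lt h4 ?_
    have h5 : 0 ≤ μ.real {σ : Gal(Kbar K/K) | σ ζ = ζ} := measureReal_nonneg
    rw [div_lt_iff₀ (by positivity)] at h3
    have h6 : 0 < (q : ℝ) - 1 := by
      have := hqp.one_lt
      have : (1 : ℝ) < q := by exact_mod_cast this
      linarith
    by_contra hcon
    push Not at hcon
    nlinarith

variable {g : ℕ}

/-- the quantitative form -/
theorem quant {R : Type} [CommRing R]
    (ρ : Gal(Kbar K/K) →* GL (Fin g ⊕ Fin g) R) (ι : R →+* ℂ)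
    (hsymp : IsSymplectic ρ) (hunr : IsUnramified K (Kbar K) ρ)
    (T : Finset (IntermediateField K (Kbar K))) (c : IntermediateField K (Kbar K) → ℝ)
    (hyp : ∀ E ∈ T, Holds ρ ι E)
    (C : Subgroup (GL (Fin g ⊕ Fin g) ℂ)) (hC : IsSatoTateGroup (extend ρ ι) C)
    (x : HeightOneSpectrum (𝓞 K) → C) (hx : IsClassSystem K (Kbar K) (extend ρ ι) C x)
    [MeasurableSpace C] [BorelSpace C] (μ : Measure C) [IsProbabilityMeasure μ]
    [μ.IsMulLeftInvariant]
    (f : C → ℂ) (hf : Continuous f) (hcl : ∀ c h, f (h * c * h⁻¹) = f c)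
    (B : ℝ) (hB : ∀ c, ‖f c‖ ≤ B) (ε : ℝ) (hε : 0 < ε) :
    ∀ᶠ N in atTop, ‖avg K (fun v => f (x v)) N - ∫ c, f c ∂μ‖ ≤ 2 * B * err T c N + ε := by
  have hB0 : 0 ≤ B := (norm_nonneg _).trans (hB 1)
  have hS : ∀ E ∈ T, FiniteDimensional K E := fun E hE => by
    haveI := (hyp E hE).1
    exact finite_of E
  obtain ⟨V, hVn, hVo, hV⟩ := exists_normal (T : Set _) T.finite_toSet
    (fun E hE => hS E hE)
  haveI : Finite (Gal(Kbar K/K) ⧸ V) := Subgroup.quotient_finite_of_isOpen V hVo
  letI : Fintype (Gal(Kbar K/K) ⧸ V) := Fintype.ofFinite _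
  have h1 := weighted (extend ρ ι) (unr_extend ρ ι hunr) (Final.isSim_of ρ ι hsymp) V hVo T
    (fun E => img V E) c (fun E hE => by
      obtain ⟨inst, hST⟩ := hyp E hE
      exact ⟨E, inst, (comap_img V (hV E hE)).symm, hST⟩) C hC x hx μ f hf hcl B hB (ε / 2)
      (by positivity)
  have h2 := (err_tendsto V hVo T hS hV c).const_mul (2 * B)
  have h3 := h2.eventually_const_lt (show 2 * B * L1 V T c - ε / 2 < 2 * B * L1 V T c by linarith)
  filter_upwards [h1, h3] with N hN1 hN2
  unfold L1 at hN2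
  linarith

end Pool.Agent.L0h51.EX
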