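import Pool.Agent.L0h51.CV.Defs

/-! Approximation of the constant function by the numbers of primes of degree one. -/

set_option autoImplicit false

namespace Pool.Agent.L0h51.EX

open Pool.Agent.K4H40.ST Pool.Agent.L0h51.CV
open NumberField IsDedekindDomain Filter Topology

variable {K : Type} [Field K] [NumberField K]

/-- The number of the primes of `E` above `v` with the same number of residue classes as `v`. -/
noncomputable def deg1 (E : IntermediateField K (Kbar K)) (v : HeightOneSpectrum (𝓞 K)) : ℕ :=
  Nat.card {w : HeightOneSpectrum (𝓞 E) //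
    w.asIdeal.comap (algebraMap (𝓞 K) (𝓞 E)) = v.asIdeal ∧
      Nat.card (𝓞 E ⧸ w.asIdeal) = Nat.card (𝓞 K ⧸ v.asIdeal)}

/-- The mean over the primes `v` of `K` of norm at most `N` of `|∑_E c_E deg1 E v - 1|`. -/
noncomputable def err (T : Finset (IntermediateField K (Kbar K)))
    (c : IntermediateField K (Kbar K) → ℝ) (N : ℕ) : ℝ :=
  ‖avg K (fun v => ((|∑ E ∈ T, c E * (deg1 E v : ℝ) - 1| : ℝ) : ℂ)) N‖

/-- The constant function `1` on the primes of `K` is in the closure of the real span of the functions
`deg1 E`, `E ∈ S`, for the seminorm `limsup` of the means of the absolute value. -/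
def Approximates (S : Set (IntermediateField K (Kbar K))) : Prop :=
  ∀ ε : ℝ, 0 < ε → ∃ (T : Finset (IntermediateField K (Kbar K)))
    (c : IntermediateField K (Kbar K) → ℝ), (T : Set (IntermediateField K (Kbar K))) ⊆ S ∧
    ∀ᶠ N : ℕ in atTop, err T c N ≤ ε

end Pool.Agent.L0h51.EX
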