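import Mathlib

/-! Duality in a finite dimensional space with the `ℓ¹` norm, and a gluing lemma. -/

set_option autoImplicit false
set_option maxHeartbeats 400000

namespace Pool.Agent.L0h51.EX

open Filter Topology

/-- Hahn-Banach for the `ℓ¹` norm. -/
theorem dual {X : Type} [Fintype X] [DecidableEq X] (W : Submodule ℝ (X → ℝ)) (u : X → ℝ) (ε : ℝ)
    (h : ∀ w ∈ W, ε ≤ ∑ x, |w x - u x|) :
    ∃ ψ : X → ℝ, (∀ x, |ψ x| ≤ 1) ∧ (∀ w ∈ W, ∑ x, ψ x * w x = 0) ∧ ε ≤ ∑ x, ψ x * u x := by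
  let e : PiLp 1 (fun _ : X => ℝ) ≃ₗ[ℝ] (X → ℝ) := (WithLp.linearEquiv 1 ℝ (X → ℝ))
  have hnorm : ∀ z : PiLp 1 (fun _ : X => ℝ), ‖z‖ = ∑ x, |e z x| := by
    intro z
    rw [PiLp.norm_eq_of_nat 1 (by norm_num)]
    simp only [pow_one, Nat.cast_one, ne_eq, one_ne_zero, not_false_eq_true, div_self,
      Real.rpow_one, Real.norm_eq_abs]
    rfl
  let W' : Submodule ℝ (PiLp 1 (fun _ : X => ℝ)) := W.comap e.toLinearMap
  haveI : IsClosed (W' : Set (PiLp 1 (fun _ : X => ℝ))) := W'.closed_of_finiteDimensional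
  obtain ⟨g, hg1, hg2⟩ := exists_dual_vector'' ℝ (Submodule.Quotient.mk (p := W') (e.symm u))
  have hge : ∀ z : PiLp 1 (fun _ : X => ℝ), g (Submodule.Quotient.mk (p := W') z) =
      ∑ x, g (Submodule.Quotient.mk (p := W') (e.symm (Pi.single x 1))) * e z x := by
    intro z
    let G : (X → ℝ) →ₗ[ℝ] ℝ := (g.toLinearMap.comp W'.mkQ).comp e.symm.toLinearMap
    have h1 : G (e z) = g (Submodule.Quotient.mk (p := W') z) := by
      change g (W'.mkQ (e.symm (e z))) = _
      rw [e.symm_apply_apply]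
      rfl
    rw [← h1]
    have h2 : e z = ∑ x, e z x • (Pi.single x (1 : ℝ) : X → ℝ) := by
      ext y
      rw [Finset.sum_apply]
      simp [Pi.single_apply]
    conv_lhs => rw [h2]
    rw [map_sum]
    refine Finset.sum_congr rfl fun x _ => ?_
    rw [map_smul, smul_eq_mul, mul_comm]
    rfl
  refine ⟨fun x => g (Submodule.Quotient.mk (p := W') (e.symm (Pi.single x 1))), fun x => ?_,
    fun w hw => ?_, ?_⟩
  · have h1 : ‖g (Submodule.Quotient.mk (p := W') (e.symm (Pi.single x 1)))‖ ≤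
        1 * ‖(Submodule.Quotient.mk (p := W') (e.symm (Pi.single x 1)) : _ ⧸ W')‖ :=
      g.le_of_opNorm_le hg1 _
    rw [one_mul, Real.norm_eq_abs] at h1
    refine h1.trans ((Submodule.Quotient.norm_mk_le W' _).trans ?_)
    rw [hnorm, LinearEquiv.apply_symm_apply]
    refine le_of_eq ?_
    rw [Finset.sum_eq_single x]
    · simp
    · intro y _ hy
      rw [Pi.single_eq_of_ne hy, abs_zero]
    · intro hx
      exact absurd (Finset.mem_univ x) hx
  · have h1 := hge (e.symm w)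
    rw [LinearEquiv.apply_symm_apply] at h1
    rw [← h1]
    have h2 : (Submodule.Quotient.mk (p := W') (e.symm w) : _ ⧸ W') = 0 := by
      rw [Submodule.Quotient.mk_eq_zero]
      change e (e.symm w) ∈ W
      rw [LinearEquiv.apply_symm_apply]
      exact hw
    rw [h2, map_zero]
  · have h1 := hge (e.symm u)
    rw [LinearEquiv.apply_symm_apply] at h1
    rw [← h1, hg2]
    change ε ≤ ‖(Submodule.Quotient.mk (p := W') (e.symm u) : _ ⧸ W')‖
    refine le_of_forall_pos_lt_add fun η hη => ?_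
    obtain ⟨m, hm1, hm2⟩ := Submodule.Quotient.norm_mk_lt
      (Submodule.Quotient.mk (p := W') (e.symm u) : _ ⧸ W') hη
    have h3 : e.symm u - m ∈ W' := (Submodule.Quotient.eq W').1 hm1.symm
    have h4 := h (e (e.symm u - m)) h3
    refine lt_of_le_of_lt h4 ?_
    refine lt_of_le_of_lt (le_of_eq ?_) hm2
    rw [hnorm]
    refine Finset.sum_congr rfl fun x _ => ?_
    rw [map_sub, LinearEquiv.apply_symm_apply, Pi.sub_apply, ← abs_neg]
    congr 1
    ring

end Pool.Agent.L0h51.EX
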