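import Mathlib

/-! Gluing test functions along a sparse sequence. -/

set_option autoImplicit false
set_option maxHeartbeats 400000

namespace Pool.Agent.L0h51.EX

open Filter Topology

theorem exists_seq_rel (P : ℕ → ℕ → ℕ → Prop) (h : ∀ n a, ∃ b, P n a b) :
    ∃ M : ℕ → ℕ, P 0 0 (M 0) ∧ ∀ n, P (n + 1) (M n) (M (n + 1)) := by
  choose F hF using h
  refine ⟨fun n => Nat.rec (F 0 0) (fun k a => F (k + 1) a) n, hF 0 0, fun n => hF (n + 1) _⟩

/-- Gluing. -/
theorem glue {ι κ : Type} (nm : ι → ℕ) (U : ℕ → Finset ι) (hU : ∀ N v, v ∈ U N ↔ nm v ≤ N)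
    (p : ℕ → ℝ) (hp : Tendsto p atTop atTop) (hpm : Monotone p) (hp0 : ∀ N, 0 ≤ p N)
    (ψ : ℕ → ι → ℝ) (hψ : ∀ n v, |ψ n v| ≤ 1) (T : ℕ → Set κ) (hT : ∀ n, (T n).Finite)
    (hTm : Monotone T) (t : κ → ι → ℝ) (Ct : κ → ℝ) (ht : ∀ E v, |t E v| ≤ Ct E)
    (h1 : ∀ n, ∀ E ∈ T n, Tendsto (fun N => (∑ v ∈ U N, ψ n v * t E v) / p N) atTop (𝓝 0))
    (ε : ℝ) (hε : 0 < ε) (h2 : ∀ n, ∀ᶠ N in atTop, ε * p N ≤ ∑ v ∈ U N, ψ n v) :
    ∃ φ : ι → ℝ, (∀ v, |φ v| ≤ 1) ∧
      (∀ E, (∃ n, E ∈ T n) → Tendsto (fun N => (∑ v ∈ U N, φ v * t E v) / p N) atTop (𝓝 0)) ∧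
      ∃ᶠ N in atTop, ε / 2 * p N ≤ ∑ v ∈ U N, φ v := by
  classical
  -- the thresholds
  have hA : ∀ n : ℕ, ∃ m : ℕ, ∀ N ≥ m, (∀ E ∈ T n, |∑ v ∈ U N, ψ n v * t E v| ≤
      p N / ((n : ℝ) + 1)) ∧ ε * p N ≤ ∑ v ∈ U N, ψ n v := by
    intro n
    have h3 : ∀ᶠ N in atTop, ∀ E ∈ T n, |∑ v ∈ U N, ψ n v * t E v| ≤ p N / ((n : ℝ) + 1) := by
      rw [eventually_all_finite (hT n)]
      intro E hE
      have h4 := (h1 n E hE).abs
      rw [abs_zero] at h4
      filter_upwards [h4.eventually_lt_const (show (0 : ℝ) < 1 / ((n : ℝ) + 1) by positivity),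
        hp.eventually_gt_atTop 0] with N hN hpN
      rw [abs_div, abs_of_pos hpN, div_lt_div_iff₀ hpN (by positivity)] at hN
      rw [le_div_iff₀ (by positivity)]
      linarith
    exact eventually_atTop.1 (h3.and (h2 n))
  choose m hm using hA
  obtain ⟨M, hM0, hM⟩ := exists_seq_rel
    (fun n a b => m n ≤ b ∧ a < b ∧ ((U a).card : ℝ) * (n : ℝ) ≤ ε / 4 * p b ∧
      ((U a).card : ℝ) ≤ ε / 4 * p b)
    (fun n a => by
      have h5 : ∀ᶠ b in atTop, ((U a).card : ℝ) * (n : ℝ) / (ε / 4) ≤ p b :=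
        hp.eventually_ge_atTop _
      have h6 : ∀ᶠ b in atTop, ((U a).card : ℝ) / (ε / 4) ≤ p b := hp.eventually_ge_atTop _
      obtain ⟨b, hb1, hb2, hb3, hb4⟩ := (h5.and (h6.and ((eventually_ge_atTop (m n)).and
        (eventually_gt_atTop a)))).exists
      rw [div_le_iff₀ (by positivity)] at hb1 hb2
      exact ⟨b, hb3, hb4, by linarith, by linarith⟩)
  have hMs : StrictMono M := strictMono_nat_of_lt_succ fun n => (hM n).2.1
  have hMm : ∀ n, m n ≤ M n := by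
    intro n
    cases n with
    | zero => exact hM0.1
    | succ n => exact (hM n).1
  have hex : ∀ v : ι, ∃ k, nm v ≤ M (k + 1) := fun v =>
    ⟨nm v, (Nat.le_succ _).trans (hMs.id_le (nm v + 1))⟩
  let k : ι → ℕ := fun v => Nat.find (hex v)
  have hk : ∀ n v, M n < nm v → nm v ≤ M (n + 1) → k v = n := by
    intro n v hv1 hv2
    refine (Nat.find_eq_iff _).2 ⟨hv2, fun j hj hcon => ?_⟩
    have h5 : M (j + 1) ≤ M n := hMs.monotone (Nat.succ_le_of_lt hj)
    omega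
  let φ : ι → ℝ := fun v => ψ (k v) v
  have hφ : ∀ v, |φ v| ≤ 1 := fun v => hψ _ v
  have hUm : ∀ a b, a ≤ b → U a ⊆ U b := fun a b hab v hv => by
    rw [hU] at hv ⊢
    exact hv.trans hab
  -- splitting
  have hsplit : ∀ (n N : ℕ) (s : ι → ℝ), M n ≤ N → N ≤ M (n + 1) →
      ∑ v ∈ U N, φ v * s v = ∑ v ∈ U (M n), φ v * s v + (∑ v ∈ U N, ψ n v * s v -
        ∑ v ∈ U (M n), ψ n v * s v) := by
    intro n N s hn1 hn2
    rw [← Finset.sum_sdiff (hUm _ _ hn1) (f := fun v => φ v * s v),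
      ← Finset.sum_sdiff (hUm _ _ hn1) (f := fun v => ψ n v * s v), add_sub_cancel_right, add_comm]
    congr 1
    refine Finset.sum_congr rfl fun v hv => ?_
    rw [Finset.mem_sdiff, hU, hU] at hv
    have : k v = n := hk n v (not_le.1 hv.2) (hv.1.trans hn2)
    change ψ (k v) v * s v = _
    rw [this]
  -- the trivial bound
  have htriv : ∀ (s : Finset ι) (E : κ), |∑ v ∈ s, φ v * t E v| ≤ s.card * Ct E := by
    intro s E
    refine (Finset.abs_sum_le_sum_abs _ _).trans ?_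
    rw [← nsmul_eq_mul]
    refine Finset.sum_le_card_nsmul _ _ _ fun v _ => ?_
    rw [abs_mul]
    have h5 := mul_le_mul (hφ v) (ht E v) (abs_nonneg _) zero_le_one
    rwa [one_mul] at h5
  have hstep : ∀ (E : κ) (n N : ℕ), E ∈ T n → M n ≤ N → N ≤ M (n + 1) →
      |∑ v ∈ U N, φ v * t E v| ≤ |∑ v ∈ U (M n), φ v * t E v| + 2 * p N / ((n : ℝ) + 1) := by
    intro E n N hE hn1 hn2
    rw [hsplit n N (t E) hn1 hn2]
    have h5 := (hm n N ((hMm n).trans hn1)).1 E hE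
    have h6 := (hm n (M n) (hMm n)).1 E hE
    have h7 : p (M n) / ((n : ℝ) + 1) ≤ p N / ((n : ℝ) + 1) :=
      div_le_div_of_nonneg_right (hpm hn1) (by positivity)
    refine (abs_add_le _ _).trans (add_le_add le_rfl ?_)
    refine (abs_sub _ _).trans ?_
    have h8 : 2 * p N / ((n : ℝ) + 1) = p N / ((n : ℝ) + 1) + p N / ((n : ℝ) + 1) := by ring
    rw [h8]
    exact add_le_add h5 (h6.trans h7)
  -- at the thresholds
  have hthr : ∀ (E : κ) (n : ℕ), E ∈ T n → |∑ v ∈ U (M (n + 1)), φ v * t E v| ≤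
      (ε / 4 * Ct E + 2) * p (M (n + 1)) / ((n : ℝ) + 1) := by
    intro E n hE
    have h5 := hstep E n (M (n + 1)) hE (hMs (Nat.lt_succ_self n)).le le_rfl
    have h6 := htriv (U (M n)) E
    have hC0 : 0 ≤ Ct E ∨ IsEmpty ι := by
      by_cases hι : Nonempty ι
      · obtain ⟨v⟩ := hι
        exact Or.inl ((abs_nonneg _).trans (ht E v))
      · exact Or.inr (not_nonempty_iff.1 hι)
    rcases hC0 with hC0 | hemp
    · have h7 : ((U (M n)).card : ℝ) * Ct E ≤ ε / 4 * Ct E * p (M (n + 1)) / ((n : ℝ) + 1) := by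
        rw [le_div_iff₀ (by positivity)]
        have h8 := (hM n).2.2.1
        push_cast at h8
        nlinarith
      refine h5.trans ((add_le_add (h6.trans h7) le_rfl).trans (le_of_eq ?_))
      ring
    · have h7 : ∀ s : Finset ι, s = ∅ := fun s => Finset.eq_empty_of_isEmpty s
      have h9 := (h2 0).exists
      obtain ⟨N, hN⟩ := ((h2 0).and (hp.eventually_gt_atTop 0)).exists
      rw [h7 (U N), Finset.sum_empty] at hN
      exfalso
      nlinarith [hN.1, hN.2]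
  refine ⟨φ, hφ, fun E hE => ?_, ?_⟩
  · obtain ⟨n₀, hn₀⟩ := hE
    have hCpos : 0 ≤ |ε / 4 * Ct E + 2| + 2 := by positivity
    rw [Metric.tendsto_atTop]
    intro η hη
    obtain ⟨n₁, hn₁⟩ := exists_nat_gt ((|ε / 4 * Ct E + 2| + 2) / η)
    obtain ⟨N₀, hN₀⟩ := eventually_atTop.1 (hp.eventually_gt_atTop 0)
    refine ⟨max (M (max n₀ n₁ + 1)) N₀, fun N hN => ?_⟩
    have hpN : 0 < p N := hN₀ N ((le_max_right _ _).trans hN)
    have hNM : M (max n₀ n₁ + 1) ≤ N := (le_max_left _ _).trans hN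
    -- the block of `N`
    obtain ⟨n, hn1, hn2, hn3⟩ : ∃ n, M (n + 1) ≤ N ∧ N ≤ M (n + 1 + 1) ∧ max n₀ n₁ ≤ n := by
      have hex2 : ∃ j, N < M j := ⟨N + 1, (Nat.lt_succ_self N).trans_le (hMs.id_le _)⟩
      set j := Nat.find hex2 with hj
      have hj1 : N < M j := Nat.find_spec hex2
      have hj2 : max n₀ n₁ + 1 < j := by
        by_contra hcon
        have h5 : M j ≤ M (max n₀ n₁ + 1) := hMs.monotone (not_lt.1 hcon)
        omega
      have h5 := Nat.find_min hex2 (m := j - 1) (by omega)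
      refine ⟨j - 2, ?_, ?_, by omega⟩
      · have h6 : j - 2 + 1 = j - 1 := by omega
        rw [h6]
        exact not_lt.1 h5
      · have h6 : j - 2 + 1 + 1 = j := by omega
        rw [h6]
        exact hj1.le
    have hE1 : E ∈ T n := hTm ((le_max_left _ _).trans hn3) hn₀
    have hE2 : E ∈ T (n + 1) := hTm (Nat.le_succ n) hE1
    have h5 := hstep E (n + 1) N hE2 hn1 hn2
    have h6 := hthr E n hE1
    rw [dist_zero_right, Real.norm_eq_abs, abs_div, abs_of_pos hpN, div_lt_iff₀ hpN]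
    have hn0 : (0 : ℝ) < (n : ℝ) + 1 := by positivity
    have h7 : (ε / 4 * Ct E + 2) * p (M (n + 1)) / ((n : ℝ) + 1) ≤
        |ε / 4 * Ct E + 2| * p N / ((n : ℝ) + 1) := by
      refine div_le_div_of_nonneg_right ?_ hn0.le
      exact mul_le_mul (le_abs_self _) (hpm hn1) (hp0 _) (abs_nonneg _)
    have h8 : 2 * p N / (((n + 1 : ℕ) : ℝ) + 1) ≤ 2 * p N / ((n : ℝ) + 1) := by
      push_cast
      exact div_le_div_of_nonneg_left (by positivity) hn0 (by linarith)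
    have h9 : |∑ v ∈ U N, φ v * t E v| ≤ (|ε / 4 * Ct E + 2| + 2) * p N / ((n : ℝ) + 1) := by
      refine h5.trans ((add_le_add (h6.trans h7) h8).trans (le_of_eq ?_))
      ring
    refine lt_of_le_of_lt h9 ?_
    rw [div_lt_iff₀ hn0]
    have h10 : (n₁ : ℝ) ≤ (n : ℝ) := by exact_mod_cast (le_max_right _ _).trans hn3
    rw [div_lt_iff₀ hη] at hn₁
    nlinarith [mul_pos hη hpN]
  · rw [frequently_atTop]
    intro a
    refine ⟨M (a + 1), (Nat.le_succ a).trans (hMs.id_le _), ?_⟩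
    have h5 := hsplit a (M (a + 1)) (fun _ => 1) (hMs (Nat.lt_succ_self a)).le le_rfl
    simp only [mul_one] at h5
    rw [h5]
    have h6 := (hm a (M (a + 1)) ((hMm a).trans (hMs (Nat.lt_succ_self a)).le)).2
    have h7 : |∑ v ∈ U (M a), φ v| ≤ ((U (M a)).card : ℝ) := by
      refine (Finset.abs_sum_le_sum_abs _ _).trans ?_
      rw [← mul_one ((U (M a)).card : ℝ), ← nsmul_eq_mul]
      exact Finset.sum_le_card_nsmul _ _ _ fun v _ => hφ v
    have h8 : |∑ v ∈ U (M a), ψ a v| ≤ ((U (M a)).card : ℝ) := by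
      refine (Finset.abs_sum_le_sum_abs _ _).trans ?_
      rw [← mul_one ((U (M a)).card : ℝ), ← nsmul_eq_mul]
      exact Finset.sum_le_card_nsmul _ _ _ fun v _ => hψ a v
    have h9 := (hM a).2.2.2
    have h10 := abs_le.1 h7
    have h11 := abs_le.1 h8
    linarith [h10.1, h11.2]

end Pool.Agent.L0h51.EX
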