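import Pool.Agent.L0h51.EX.Defs
import Pool.Agent.L0h51.EX.Dual
import Pool.Agent.L0h51.EX.Glue
import Pool.Agent.L0h51.CV.Suf
import Pool.Agent.K4H53.SI.Fn

/-! The exact criterion. -/

set_option autoImplicit false
set_option maxHeartbeats 400000
set_option linter.style.haveILetI false

namespace Pool.Agent.L0h51.EX

open Pool.Agent.K4H40.ST Pool.Agent.K4H40.ST.Zar Pool.Agent.K4H40.ST.Main
open Pool.Agent.K4H53.SI Pool.Agent.L0h51.CV
open NumberField IsDedekindDomain Filter Topology MeasureTheory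
open Pool.Agent.W540.BE (upto mem_upto cheb_mean)

variable {K : Type} [Field K] [NumberField K]

theorem deg1_eq (E : IntermediateField K (Kbar K)) [NumberField E] (v : HeightOneSpectrum (𝓞 K)) :
    deg1 E v = Nat.card {w : HeightOneSpectrum (𝓞 E) //
        w.asIdeal.comap (algebraMap (𝓞 K) (𝓞 E)) = v.asIdeal ∧
        Ideal.absNorm w.asIdeal = Ideal.absNorm v.asIdeal} := by
  unfold deg1
  refine Nat.card_congr (Equiv.subtypeEquivRight fun w => ?_)
  rw [absNorm_card, absNorm_card]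

/-- the number of the fixed points -/
noncomputable def fxx (E : IntermediateField K (Kbar K)) (σ : Gal(Kbar K/K)) : ℝ :=
  (Nat.card {c : Gal(Kbar K/K) ⧸ E.fixingSubgroup // σ • c = c} : ℝ)

omit [NumberField K] in
theorem fx_img (V : Subgroup Gal(Kbar K/K)) [V.Normal] (E : IntermediateField K (Kbar K))
    (hE : V ≤ E.fixingSubgroup) (σ : Gal(Kbar K/K)) :
    fx (img V E) (QuotientGroup.mk σ) = fxx E σ := by
  have h5 := Fld.card_fix V (img V E) σ
  rw [comap_img V hE] at h5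
  unfold fx fxx
  rw [h5]

theorem deg1_ae (E : IntermediateField K (Kbar K)) (hE : FiniteDimensional K E) :
    {v : HeightOneSpectrum (𝓞 K) | ¬ ∀ σ, IsFrob K (Kbar K) v σ → (deg1 E v : ℝ) = fxx E σ}.Finite := by
  haveI : NumberField E := NumberField.of_module_finite K _
  obtain ⟨V, hVn, hVo, hV⟩ := exists_normal {E} (Set.finite_singleton E) (by
    rintro _ rfl
    infer_instance)
  refine (Count.task_count V E.fixingSubgroup hVo (hV E rfl) E rfl).subset fun v hv h =>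
    hv fun σ hσ => ?_
  unfold fxx
  rw [deg1_eq, h σ hσ]

/-- the `L¹` distance at a finite level -/
noncomputable def L1 (V : Subgroup Gal(Kbar K/K)) [V.Normal] [Fintype (Gal(Kbar K/K) ⧸ V)]
    (T : Finset (IntermediateField K (Kbar K))) (c : IntermediateField K (Kbar K) → ℝ) : ℝ :=
  (∑ a : Gal(Kbar K/K) ⧸ V, |∑ E ∈ T, c E * fx (img V E) a - 1|) /
    (Nat.card (Gal(Kbar K/K) ⧸ V) : ℝ)

theorem err_tendsto (V : Subgroup Gal(Kbar K/K)) [V.Normal] [Fintype (Gal(Kbar K/K) ⧸ V)]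
    (hVo : IsOpen (V : Set Gal(Kbar K/K)))
    (T : Finset (IntermediateField K (Kbar K))) (hT : ∀ E ∈ T, FiniteDimensional K E)
    (hTV : ∀ E ∈ T, V ≤ E.fixingSubgroup) (c : IntermediateField K (Kbar K) → ℝ) :
    Tendsto (err T c) atTop (𝓝 (L1 V T c)) := by
  classical
  haveI : Finite (Gal(Kbar K/K) ⧸ V) := Subgroup.quotient_finite_of_isOpen V hVo
  have hfr := (Pool.Agent.W401.Frob.main K).1
  choose σ hσ using hfr
  have hmean := cheb_mean (F := K) V hVo
    (fun a => ((|∑ E ∈ T, c E * fx (img V E) a - 1| : ℝ) : ℂ))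
    (fun a b => by
      have : ∑ E ∈ T, c E * fx (img V E) (b * a * b⁻¹) = ∑ E ∈ T, c E * fx (img V E) a :=
        Finset.sum_congr rfl fun C _ => by rw [fx_conj]
      simp only [this]) σ hσ
  -- the set of exceptions
  have hBf : (⋃ E ∈ T, {v : HeightOneSpectrum (𝓞 K) | ¬ ∀ σ, IsFrob K (Kbar K) v σ →
      (deg1 E v : ℝ) = fxx E σ}).Finite := T.finite_toSet.biUnion fun E hE => deg1_ae E (hT E hE)
  set Bad := ⋃ E ∈ T, {v : HeightOneSpectrum (𝓞 K) | ¬ ∀ σ, IsFrob K (Kbar K) v σ →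
      (deg1 E v : ℝ) = fxx E σ} with hBad
  have hgood : ∀ v, v ∉ Bad → ∑ E ∈ T, c E * (deg1 E v : ℝ) =
      ∑ E ∈ T, c E * fx (img V E) (QuotientGroup.mk (σ v)) := by
    intro v hv
    refine Finset.sum_congr rfl fun E hE => ?_
    rw [fx_img V E (hTV E hE)]
    congr 1
    by_contra hcon
    exact hv (Set.mem_biUnion hE fun h => hcon (h (σ v) (hσ v)))
  set A : HeightOneSpectrum (𝓞 K) → ℝ := fun v => |∑ E ∈ T, c E * (deg1 E v : ℝ) - 1| with hA
  set A' : HeightOneSpectrum (𝓞 K) → ℝ := fun v =>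
    |∑ E ∈ T, c E * fx (img V E) (QuotientGroup.mk (σ v)) - 1| with hA'
  have hdiff : ∀ N, ‖∑ v ∈ upto K N, (A v : ℂ) - ∑ v ∈ upto K N, (A' v : ℂ)‖ ≤
      ∑ v ∈ hBf.toFinset, |A v - A' v| := by
    intro N
    rw [← Finset.sum_sub_distrib]
    have h1 : ∑ v ∈ upto K N, ((A v : ℂ) - (A' v : ℂ)) =
        ∑ v ∈ (upto K N).filter (fun v => v ∈ Bad), ((A v : ℂ) - (A' v : ℂ)) := by
      refine (Finset.sum_filter_of_ne fun v _ hne => ?_).symm
      by_contra hvB
      refine hne ?_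
      rw [hA, hA']
      simp only
      rw [hgood v hvB, sub_self]
    rw [h1]
    refine (norm_sum_le _ _).trans ?_
    have h2 : ∀ v, ‖(A v : ℂ) - (A' v : ℂ)‖ = |A v - A' v| := by
      intro v
      rw [← Complex.ofReal_sub, Complex.norm_real, Real.norm_eq_abs]
    simp_rw [h2]
    refine Finset.sum_le_sum_of_subset_of_nonneg (fun v hv => ?_) (fun v _ _ => abs_nonneg _)
    rw [Set.Finite.mem_toFinset]
    exact (Finset.mem_filter.1 hv).2
  have h3 : Tendsto (fun N : ℕ => (∑ v ∈ upto K N, (A v : ℂ)) / (Nat.primeCounting N : ℂ) -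
      (∑ v ∈ upto K N, (A' v : ℂ)) / (Nat.primeCounting N : ℂ)) atTop (𝓝 0) := by
    have h4 : Tendsto (fun N : ℕ => (∑ v ∈ hBf.toFinset, |A v - A' v|) /
        (Nat.primeCounting N : ℝ)) atTop (𝓝 0) := prime_tendsto.const_div_atTop _
    refine squeeze_zero_norm (fun N => ?_) h4
    rw [← sub_div, norm_div, Complex.norm_natCast]
    exact div_le_div_of_nonneg_right (hdiff N) (Nat.cast_nonneg _)
  have h4 := h3.add hmean
  rw [zero_add] at h4
  have h5 : Tendsto (fun N : ℕ => (∑ v ∈ upto K N, (A v : ℂ)) / (Nat.primeCounting N : ℂ)) atTop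
      (𝓝 ((Nat.card (Gal(Kbar K/K) ⧸ V) : ℂ)⁻¹ * ∑ᶠ q : Gal(Kbar K/K) ⧸ V,
        ((|∑ E ∈ T, c E * fx (img V E) q - 1| : ℝ) : ℂ))) := by
    refine h4.congr fun N => ?_
    rw [sub_add_cancel]
  have h6 := ((Fld.avg_iff _ _).2 h5).norm
  have h7 : ‖(Nat.card (Gal(Kbar K/K) ⧸ V) : ℂ)⁻¹ * ∑ᶠ q : Gal(Kbar K/K) ⧸ V,
        ((|∑ E ∈ T, c E * fx (img V E) q - 1| : ℝ) : ℂ)‖ = L1 V T c := by
    unfold L1
    rw [finsum_eq_sum_of_fintype, ← Complex.ofReal_sum, norm_mul, norm_inv,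
        Complex.norm_natCast, Complex.norm_real, Real.norm_eq_abs,
        abs_of_nonneg (Finset.sum_nonneg fun a _ => abs_nonneg _), mul_comm, ← div_eq_mul_inv]
  rw [h7] at h6
  exact h6

/-- The approximation gives the transfer of the means. -/
theorem transfers_of_approx (S : Set (IntermediateField K (Kbar K)))
    (hS : ∀ E ∈ S, FiniteDimensional K E) (h : Approximates S) : Transfers S := by
  classical
  rintro φ ⟨B, hφ⟩ hyp
  have hB0 : 0 ≤ B := (norm_nonneg _).trans (hφ (Fld.exists_not_mem ∅ Set.finite_empty).choose)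
  have hfr := (Pool.Agent.W401.Frob.main K).1
  choose σ hσ using hfr
  rw [Metric.tendsto_nhds]
  intro ε hε
  obtain ⟨η, hη0, hη⟩ : ∃ η : ℝ, 0 < η ∧ (2 * B + 3) * η ≤ ε :=
    ⟨ε / (2 * B + 3), by positivity, le_of_eq (by field_simp)⟩
  obtain ⟨T, c, hTS, hTd⟩ := h η hη0
  obtain ⟨V, hVn, hVo, hV⟩ := exists_normal (T : Set _) T.finite_toSet
    (fun E hE => hS E (hTS hE))
  haveI : Finite (Gal(Kbar K/K) ⧸ V) := Subgroup.quotient_finite_of_isOpen V hVo
  letI : Fintype (Gal(Kbar K/K) ⧸ V) := Fintype.ofFinite _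
  have hL1 : L1 V T c ≤ η := le_of_tendsto (err_tendsto V hVo T (fun E hE => hS E (hTS hE)) hV c) hTd
  have hfield : ∀ E ∈ T, Tendsto (fun N : ℕ => (∑ v ∈ upto K N, φ v *
      (fx (img V E) (QuotientGroup.mk (σ v)) : ℂ)) / (Nat.primeCounting N : ℂ)) atTop (𝓝 0) := by
    intro E hE
    obtain ⟨inst, h1⟩ := hyp E (hTS hE)
    obtain ⟨ψ, hψ⟩ := exists_pull E φ
    have h2 := exists_transfer E V hVo (hV E hE) σ hσ φ B hφ ψ hψ
    have h3 := (h1 ψ hψ).sub h2
    rw [sub_zero] at h3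
    refine h3.congr fun N => ?_
    rw [sub_sub_cancel]
  have hcomb : Tendsto (fun N : ℕ => ∑ E ∈ T, (c E : ℂ) * ((∑ v ∈ upto K N, φ v *
      (fx (img V E) (QuotientGroup.mk (σ v)) : ℂ)) / (Nat.primeCounting N : ℂ))) atTop (𝓝 0) := by
    have := tendsto_finsetSum T fun C hC => (hfield C hC).const_mul (c C : ℂ)
    simpa using this
  have hmean := cheb_mean (F := K) V hVo
    (fun a => ((|∑ E ∈ T, c E * fx (img V E) a - 1| : ℝ) : ℂ))
    (fun a b => by
      have : ∑ E ∈ T, c E * fx (img V E) (b * a * b⁻¹) = ∑ E ∈ T, c E * fx (img V E) a :=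
        Finset.sum_congr rfl fun C _ => by rw [fx_conj]
      simp only [this]) σ hσ
  have hlim : ‖(Nat.card (Gal(Kbar K/K) ⧸ V) : ℂ)⁻¹ * ∑ᶠ q : Gal(Kbar K/K) ⧸ V,
      ((|∑ E ∈ T, c E * fx (img V E) q - 1| : ℝ) : ℂ)‖ ≤ η := by
    rw [finsum_eq_sum_of_fintype, ← Complex.ofReal_sum, norm_mul, norm_inv,
        Complex.norm_natCast, Complex.norm_real, Real.norm_eq_abs,
        abs_of_nonneg (Finset.sum_nonneg fun a _ => abs_nonneg _), mul_comm, ← div_eq_mul_inv]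
    exact hL1
  have h1 : ∀ᶠ N : ℕ in atTop, ‖∑ E ∈ T, (c E : ℂ) * ((∑ v ∈ upto K N, φ v *
      (fx (img V E) (QuotientGroup.mk (σ v)) : ℂ)) / (Nat.primeCounting N : ℂ))‖ < η := by
    have := hcomb.norm
    rw [norm_zero] at this
    exact this.eventually_lt_const hη0
  have h2 : ∀ᶠ N : ℕ in atTop, ‖(∑ v ∈ upto K N,
      ((|∑ E ∈ T, c E * fx (img V E) (QuotientGroup.mk (σ v)) - 1| : ℝ) : ℂ)) /
      (Nat.primeCounting N : ℂ)‖ < 2 * η := hmean.norm.eventually_lt_const (by linarith)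
  have h3 : ∀ᶠ N in atTop, dist (avg K φ N -
      (∑ v ∈ upto K N, φ v) / (Nat.primeCounting N : ℂ)) 0 < η :=
    (avg_sub φ B hφ).eventually (Metric.ball_mem_nhds 0 hη0)
  filter_upwards [h1, h2, h3] with N h1 h2 h3
  rw [dist_zero_right] at h3 ⊢
  have h4 := norm_le_of (upto K N) φ
    (fun v => ∑ E ∈ T, c E * fx (img V E) (QuotientGroup.mk (σ v))) B hφ (Nat.primeCounting N)
  have h5 : (∑ v ∈ upto K N, φ v *
      ((∑ E ∈ T, c E * fx (img V E) (QuotientGroup.mk (σ v)) : ℝ) : ℂ)) /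
      (Nat.primeCounting N : ℂ) = ∑ E ∈ T, (c E : ℂ) * ((∑ v ∈ upto K N, φ v *
      (fx (img V E) (QuotientGroup.mk (σ v)) : ℂ)) / (Nat.primeCounting N : ℂ)) := by
    simp_rw [mul_div_assoc']
    rw [← Finset.sum_div]
    congr 1
    simp_rw [Finset.mul_sum]
    rw [Finset.sum_comm]
    refine Finset.sum_congr rfl fun v _ => ?_
    push_cast
    rw [Finset.mul_sum]
    refine Finset.sum_congr rfl fun i _ => ?_
    ring
  rw [h5] at h4
  have h6 : avg K φ N = (avg K φ N - (∑ v ∈ upto K N, φ v) / (Nat.primeCounting N : ℂ)) +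
      ((∑ v ∈ upto K N, φ v) / (Nat.primeCounting N : ℂ) - ∑ E ∈ T, (c E : ℂ) *
        ((∑ v ∈ upto K N, φ v * (fx (img V E) (QuotientGroup.mk (σ v)) : ℂ)) /
          (Nat.primeCounting N : ℂ))) + ∑ E ∈ T, (c E : ℂ) *
        ((∑ v ∈ upto K N, φ v * (fx (img V E) (QuotientGroup.mk (σ v)) : ℂ)) /
          (Nat.primeCounting N : ℂ)) := by
    ring
  have h7 : B * ‖(∑ v ∈ upto K N,
      ((|∑ E ∈ T, c E * fx (img V E) (QuotientGroup.mk (σ v)) - 1| : ℝ) : ℂ)) /
      (Nat.primeCounting N : ℂ)‖ ≤ B * (2 * η) := mul_le_mul_of_nonneg_left h2.le hB0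
  have h8 : ‖avg K φ N‖ < η + B * (2 * η) + η := by
    rw [h6]
    refine lt_of_le_of_lt (norm_add_le _ _) (add_lt_add_of_le_of_lt ?_ h1)
    exact (norm_add_le _ _).trans (add_le_add h3.le (h4.trans h7))
  refine h8.trans_le (le_trans ?_ hη)
  nlinarith

variable {g : ℕ}

/-- The approximation gives the Sato-Tate conjecture over the base field. -/
theorem base_of_approx {R : Type} [CommRing R]
    (ρ : Gal(Kbar K/K) →* GL (Fin g ⊕ Fin g) R) (ι : R →+* ℂ)
    (hsymp : IsSymplectic ρ) (hunr : IsUnramified K (Kbar K) ρ)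
    (S : Set (IntermediateField K (Kbar K))) (h : Approximates S)
    (hyp : ∀ E ∈ S, Holds ρ ι E) : SatoTate K (Kbar K) (extend ρ ι) := by
  classical
  have hS : ∀ E ∈ S, FiniteDimensional K E := fun E hE => by
    haveI := (hyp E hE).1
    exact finite_of E
  intro C hC x hx _ _ μ _ _ f hf hcl
  haveI : CompactSpace C := isCompact_iff_compactSpace.mp hC.compact
  obtain ⟨B, hB'⟩ := isCompact_univ.exists_bound_of_continuousOn hf.continuousOn
  have hB : ∀ c, ‖f c‖ ≤ B := fun c => hB' c trivial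
  have hB0 : 0 ≤ B := (norm_nonneg _).trans (hB 1)
  rw [Metric.tendsto_nhds]
  intro ε hε
  obtain ⟨η, hη0, hη⟩ : ∃ η : ℝ, 0 < η ∧ (2 * B + 2) * η ≤ ε :=
    ⟨ε / (2 * B + 2), by positivity, le_of_eq (by field_simp)⟩
  obtain ⟨T, c, hTS, hTd⟩ := h η hη0
  obtain ⟨V, hVn, hVo, hV⟩ := exists_normal (T : Set _) T.finite_toSet
    (fun E hE => hS E (hTS hE))
  haveI : Finite (Gal(Kbar K/K) ⧸ V) := Subgroup.quotient_finite_of_isOpen V hVo
  letI : Fintype (Gal(Kbar K/K) ⧸ V) := Fintype.ofFinite _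
  have hL1 : L1 V T c ≤ η := le_of_tendsto (err_tendsto V hVo T (fun E hE => hS E (hTS hE)) hV c) hTd
  have h1 := weighted (extend ρ ι) (unr_extend ρ ι hunr) (Final.isSim_of ρ ι hsymp) V hVo T
    (fun E => img V E) c (fun E hE => by
      obtain ⟨inst, hST⟩ := hyp E (hTS hE)
      exact ⟨E, inst, (comap_img V (hV E hE)).symm, hST⟩) C hC x hx μ f hf hcl B hB η hη0
  filter_upwards [h1] with N hN
  rw [dist_eq_norm]
  refine lt_of_le_of_lt hN ?_
  have h2 : 2 * B * L1 V T c ≤ 2 * B * η := mul_le_mul_of_nonneg_left hL1 (by positivity)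
  unfold L1 at h2
  nlinarith

end Pool.Agent.L0h51.EX
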