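import Pool.Agent.L0h51.EX.Exact

/-! The necessity of the approximation. -/

set_option autoImplicit false
set_option maxHeartbeats 400000
set_option linter.style.haveILetI false

namespace Pool.Agent.L0h51.EX

open Pool.Agent.K4H40.ST Pool.Agent.K4H40.ST.Zar Pool.Agent.K4H40.ST.Main
open Pool.Agent.K4H53.SI Pool.Agent.L0h51.CV
open NumberField IsDedekindDomain Filter Topology MeasureTheory
open Pool.Agent.W540.BE (upto mem_upto cheb_mean)

variable {K : Type} [Field K] [NumberField K]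

/-- duality with class functions -/
theorem dual_class {Γ : Type} [Group Γ] [Fintype Γ] {κ : Type} (T : Finset κ) (H : κ → Subgroup Γ)
    (ε : ℝ) (h : ∀ c : κ → ℝ, ε ≤ (∑ a : Γ, |∑ i ∈ T, c i * fx (H i) a - 1|) / (Nat.card Γ : ℝ)) :
    ∃ ψ : Γ → ℝ, (∀ a, |ψ a| ≤ 1) ∧ (∀ a b, ψ (b * a * b⁻¹) = ψ a) ∧
      (∀ i ∈ T, ∑ a, ψ a * fx (H i) a = 0) ∧ ε * (Nat.card Γ : ℝ) ≤ ∑ a, ψ a := by
  classical
  have hΓ : (0 : ℝ) < (Nat.card Γ : ℝ) := by exact_mod_cast Nat.card_pos
  obtain ⟨ψ, hψ1, hψ2, hψ3⟩ := dual (X := Γ)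
    (Submodule.span ℝ (Set.range fun i : T => (fx (H i) : Γ → ℝ))) (fun _ => 1)
    (ε * (Nat.card Γ : ℝ)) (fun w hw => by
      obtain ⟨c, hc⟩ := (Submodule.mem_span_range_iff_exists_fun ℝ).1 hw
      have h1 := h (fun i => if hi : i ∈ T then c ⟨i, hi⟩ else 0)
      rw [le_div_iff₀ hΓ] at h1
      refine h1.trans (le_of_eq ?_)
      refine Finset.sum_congr rfl fun a _ => ?_
      have h2 : w a = ∑ i ∈ T, (if hi : i ∈ T then c ⟨i, hi⟩ else 0) * fx (H i) a := by
        rw [← hc, Finset.sum_apply, ← Finset.sum_coe_sort T]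
        refine Finset.sum_congr rfl fun i _ => ?_
        rw [dif_pos i.2]
        rfl
      rw [← h2])
  -- symmetrization
  have hsym : ∀ F : Γ → ℝ, (∀ a b, F (b * a * b⁻¹) = F a) →
      ∑ a, ((Nat.card Γ : ℝ)⁻¹ * ∑ x, ψ (x * a * x⁻¹)) * F a = ∑ a, ψ a * F a := by
    intro F hF
    have h1 : ∀ x, ∑ a, ψ (x * a * x⁻¹) * F a = ∑ a, ψ a * F a := by
      intro x
      rw [← Equiv.sum_comp (MulAut.conj x).toEquiv (fun a => ψ a * F a)]
      refine Finset.sum_congr rfl fun a _ => ?_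
      have h3 : (MulAut.conj x).toEquiv a = x * a * x⁻¹ := rfl
      rw [h3, hF]
    calc ∑ a, ((Nat.card Γ : ℝ)⁻¹ * ∑ x, ψ (x * a * x⁻¹)) * F a
        = (Nat.card Γ : ℝ)⁻¹ * ∑ x, ∑ a, ψ (x * a * x⁻¹) * F a := by
          rw [Finset.sum_comm, Finset.mul_sum]
          refine Finset.sum_congr rfl fun a _ => ?_
          rw [Finset.mul_sum, Finset.mul_sum, Finset.sum_mul]
          refine Finset.sum_congr rfl fun x _ => ?_
          ring
      _ = ∑ a, ψ a * F a := by
          rw [Finset.sum_congr rfl fun x _ => h1 x, Finset.sum_const, Finset.card_univ,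
            Nat.card_eq_fintype_card, nsmul_eq_mul, ← mul_assoc, inv_mul_cancel₀, one_mul]
          rw [← Nat.card_eq_fintype_card]
          exact hΓ.ne'
  refine ⟨fun a => (Nat.card Γ : ℝ)⁻¹ * ∑ x, ψ (x * a * x⁻¹), fun a => ?_, fun a b => ?_,
    fun i hi => ?_, ?_⟩
  · rw [abs_mul, abs_of_pos (inv_pos.2 hΓ), inv_mul_le_iff₀ hΓ, mul_one]
    refine (Finset.abs_sum_le_sum_abs _ _).trans ?_
    rw [Nat.card_eq_fintype_card, ← Finset.card_univ, ← mul_one ((Finset.univ.card : ℕ) : ℝ),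
      ← nsmul_eq_mul]
    exact Finset.sum_le_card_nsmul _ _ _ fun v _ => hψ1 _
  · have h1 : ∑ x, ψ (x * (b * a * b⁻¹) * x⁻¹) = ∑ x, ψ (x * a * x⁻¹) := by
      rw [← Equiv.sum_comp (Equiv.mulRight b) (fun x => ψ (x * a * x⁻¹))]
      refine Finset.sum_congr rfl fun x _ => ?_
      rw [Equiv.coe_mulRight]
      congr 1
      group
    beta_reduce
    rw [h1]
  · rw [hsym (fx (H i)) (fun a b => fx_conj _ _ _)]
    exact hψ2 _ (Submodule.subset_span ⟨⟨i, hi⟩, rfl⟩)
  · have h1 := hsym (fun _ => 1) (fun _ _ => rfl)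
    simp only [mul_one] at h1
    rw [h1]
    simpa using hψ3

/-- If the constant function is not in the closure, then the means are not transferred. -/
theorem approx_of_transfers (S : Set (IntermediateField K (Kbar K)))
    (hS : ∀ E ∈ S, FiniteDimensional K E) (htr : Transfers S) : Approximates S := by
  classical
  by_contra hcon
  unfold Approximates at hcon
  push Not at hcon
  obtain ⟨ε, hε, hcon⟩ := hcon
  obtain ⟨T, hTf, hTS, hTm, hTe⟩ := exists_exhaust S (countable_fields S hS)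
  have hfr := (Pool.Agent.W401.Frob.main K).1
  choose σ hσ using hfr
  -- the test functions
  have hψ : ∀ n, ∃ ψ : HeightOneSpectrum (𝓞 K) → ℝ, (∀ v, |ψ v| ≤ 1) ∧
      (∀ E ∈ T n, Tendsto (fun N : ℕ => (∑ v ∈ upto K N, ψ v * fxx E (σ v)) /
        (Nat.primeCounting N : ℝ)) atTop (𝓝 0)) ∧
      ∀ᶠ N : ℕ in atTop, ε / 2 * (Nat.primeCounting N : ℝ) ≤ ∑ v ∈ upto K N, ψ v := by
    intro n
    obtain ⟨V, hVn, hVo, hV⟩ := exists_normal (T n) (hTf n) (fun E hE => hS E (hTS n hE))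
    haveI : Finite (Gal(Kbar K/K) ⧸ V) := Subgroup.quotient_finite_of_isOpen V hVo
    letI : Fintype (Gal(Kbar K/K) ⧸ V) := Fintype.ofFinite _
    have hG0 : (0 : ℝ) < (Nat.card (Gal(Kbar K/K) ⧸ V) : ℝ) := by exact_mod_cast Nat.card_pos
    obtain ⟨ψ, h1, h2, h3, h4⟩ := dual_class (hTf n).toFinset (img V) ε (fun c => by
      have h5 := err_tendsto V hVo (hTf n).toFinset
        (fun E hE => hS E (hTS n ((hTf n).mem_toFinset.1 hE)))
        (fun E hE => hV E ((hTf n).mem_toFinset.1 hE)) c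
      by_contra hlt
      push Not at hlt
      have h6 := h5.eventually_lt_const hlt
      have h7 := hcon (hTf n).toFinset c (by
        rw [Set.Finite.coe_toFinset]
        exact hTS n)
      obtain ⟨N, hN1, hN2⟩ := (h7.and_eventually h6).exists
      exact absurd hN1 (not_lt.2 hN2.le))
    refine ⟨fun v => ψ (QuotientGroup.mk (σ v)), fun v => h1 _, fun E hE => ?_, ?_⟩
    · have h5 := cheb_mean (F := K) V hVo (fun a => ((ψ a * fx (img V E) a : ℝ) : ℂ))
        (fun a b => by simp only [h2, fx_conj]) σ hσ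
      have h6 := (Complex.continuous_re.tendsto _).comp h5
      have h7 : ((Nat.card (Gal(Kbar K/K) ⧸ V) : ℂ)⁻¹ * ∑ᶠ q : Gal(Kbar K/K) ⧸ V,
          ((ψ q * fx (img V E) q : ℝ) : ℂ)).re = 0 := by
        rw [finsum_eq_sum_of_fintype, ← Complex.ofReal_sum,
          h3 E ((hTf n).mem_toFinset.2 hE), Complex.ofReal_zero, mul_zero, Complex.zero_re]
      rw [h7] at h6
      refine h6.congr fun N => ?_
      change ((∑ v ∈ upto K N, ((ψ (QuotientGroup.mk (σ v)) *
        fx (img V E) (QuotientGroup.mk (σ v)) : ℝ) : ℂ)) / (Nat.primeCounting N : ℂ)).re = _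
      rw [← Complex.ofReal_sum, ← Complex.ofReal_natCast, ← Complex.ofReal_div,
        Complex.ofReal_re]
      congr 1
      refine Finset.sum_congr rfl fun v _ => ?_
      rw [fx_img V E (hV E hE)]
    · have h5 := cheb_mean (F := K) V hVo (fun a => ((ψ a : ℝ) : ℂ))
        (fun a b => by simp only [h2]) σ hσ
      have h6 := (Complex.continuous_re.tendsto _).comp h5
      have h7 : ε ≤ ((Nat.card (Gal(Kbar K/K) ⧸ V) : ℂ)⁻¹ * ∑ᶠ q : Gal(Kbar K/K) ⧸ V,
          ((ψ q : ℝ) : ℂ)).re := by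
        rw [finsum_eq_sum_of_fintype, ← Complex.ofReal_sum, ← Complex.ofReal_natCast,
          ← Complex.ofReal_inv, ← Complex.ofReal_mul, Complex.ofReal_re, inv_mul_eq_div,
          le_div_iff₀ hG0]
        exact h4
      filter_upwards [h6.eventually_const_lt (lt_of_lt_of_le (half_lt_self hε) h7),
        prime_tendsto.eventually_gt_atTop 0] with N hN hp
      have h8 : ((∑ v ∈ upto K N, ((ψ (QuotientGroup.mk (σ v)) : ℝ) : ℂ)) /
        (Nat.primeCounting N : ℂ)).re = (∑ v ∈ upto K N, ψ (QuotientGroup.mk (σ v))) /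
          (Nat.primeCounting N : ℝ) := by
        rw [← Complex.ofReal_sum, ← Complex.ofReal_natCast, ← Complex.ofReal_div,
          Complex.ofReal_re]
      have h9 : ε / 2 < (∑ v ∈ upto K N, ψ (QuotientGroup.mk (σ v))) /
          (Nat.primeCounting N : ℝ) := by
        rw [← h8]
        exact hN
      rw [lt_div_iff₀ hp] at h9
      exact h9.le
  choose ψ hψ1 hψ2 hψ3 using hψ
  -- gluing
  have hbd : ∀ (E : S) (v : HeightOneSpectrum (𝓞 K)), |fxx E.1 (σ v)| ≤
      (Nat.card (Gal(Kbar K/K) ⧸ E.1.fixingSubgroup) : ℝ) := by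
    intro E v
    haveI := hS E.1 E.2
    have hEo : IsOpen (E.1.fixingSubgroup : Set Gal(Kbar K/K)) := E.1.fixingSubgroup_isOpen
    haveI : Finite (Gal(Kbar K/K) ⧸ E.1.fixingSubgroup) :=
      Subgroup.quotient_finite_of_isOpen _ hEo
    unfold fxx
    rw [abs_of_nonneg (Nat.cast_nonneg _)]
    exact_mod_cast Nat.card_le_card_of_injective _ Subtype.val_injective
  obtain ⟨φ, hφ1, hφ2, hφ3⟩ := glue (κ := S) (fun v : HeightOneSpectrum (𝓞 K) =>
      Ideal.absNorm v.asIdeal) (fun N => upto K N) (fun N v => mem_upto)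
    (fun N => (Nat.primeCounting N : ℝ)) prime_tendsto
    (fun a b hab => Nat.cast_le.2 (Nat.monotone_primeCounting hab)) (fun N => Nat.cast_nonneg _)
    ψ hψ1 (fun n => {E : S | E.1 ∈ T n})
    (fun n => Set.Finite.preimage Subtype.val_injective.injOn (hTf n))
    (fun m n hmn E hE => hTm hmn hE) (fun E v => fxx E.1 (σ v))
    (fun E => (Nat.card (Gal(Kbar K/K) ⧸ E.1.fixingSubgroup) : ℝ)) hbd
    (fun n E hE => hψ2 n E.1 hE) (ε / 2) (by positivity) hψ3
  have h1 := htr (fun v => (φ v : ℂ)) ⟨1, fun v => by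
    rw [Complex.norm_real, Real.norm_eq_abs]
    exact hφ1 v⟩ (fun E hE => by
    haveI := hS E hE
    haveI hn : NumberField E := NumberField.of_module_finite K _
    refine ⟨hn, fun Ψ hΨ => ?_⟩
    obtain ⟨V, hVn, hVo, hV⟩ := exists_normal {E} (Set.finite_singleton E) (by
      rintro _ rfl
      infer_instance)
    have hVE : V ≤ E.fixingSubgroup := hV E rfl
    have h2 := exists_transfer E V hVo hVE σ hσ (fun v => (φ v : ℂ)) 1 (fun v => by
      rw [Complex.norm_real, Real.norm_eq_abs]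
      exact hφ1 v) Ψ hΨ
    have h3 := hφ2 ⟨E, hE⟩ (hTe E hE)
    have h4 := (Complex.continuous_ofReal.tendsto _).comp h3
    rw [Complex.ofReal_zero] at h4
    have h5 := h2.add h4
    rw [add_zero] at h5
    refine h5.congr fun N => ?_
    have h6 : ((∑ v ∈ upto K N, φ v * fxx E (σ v)) / (Nat.primeCounting N : ℝ) : ℝ) =
        (∑ v ∈ upto K N, (φ v : ℂ) * (fx (img V E) (QuotientGroup.mk (σ v)) : ℂ)) /
          (Nat.primeCounting N : ℂ) := by
      push_cast
      congr 1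
      refine Finset.sum_congr rfl fun v _ => ?_
      rw [fx_img V E hVE]
    change avg E Ψ N - _ + (((∑ v ∈ upto K N, φ v * fxx E (σ v)) /
      (Nat.primeCounting N : ℝ) : ℝ) : ℂ) = avg E Ψ N
    rw [h6, sub_add_cancel])
  have h2 := (Complex.continuous_re.tendsto _).comp ((Fld.avg_iff _ _).1 h1)
  rw [Complex.zero_re] at h2
  obtain ⟨N, hN1, hN2, hN3⟩ := (hφ3.and_eventually ((h2.eventually_lt_const
    (show (0 : ℝ) < ε / 2 / 2 by positivity)).and (prime_tendsto.eventually_gt_atTop 0))).exists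
  have h8 : ((∑ v ∈ upto K N, (φ v : ℂ)) / (Nat.primeCounting N : ℂ)).re =
      (∑ v ∈ upto K N, φ v) / (Nat.primeCounting N : ℝ) := by
    rw [← Complex.ofReal_sum, ← Complex.ofReal_natCast, ← Complex.ofReal_div,
          Complex.ofReal_re]
  have h9 : (∑ v ∈ upto K N, φ v) / (Nat.primeCounting N : ℝ) < ε / 2 / 2 := by
    rw [← h8]
    exact hN2
  rw [div_lt_iff₀ hN3] at h9
  linarith

end Pool.Agent.L0h51.EX
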